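import Pool.Agent.Helper83.EIN2.Goals

/-!
# Project EIN2, packet MMC: four solutions `MM`
-/

set_option autoImplicit false

namespace Pool.Agent.Helper49.EIN2

open Finset Topology Filter Pool.Agent.Helper83.EIN Pool.Agent.Helper83.EIN2

theorem FMM_cd : ContDiff ℝ 1 (fun z : (ℝ × ℝ × ℝ) × (Fin 12 → ℝ) ↦
    FMM z.1.1 z.1.2.1 z.1.2.2 z.2) := by
  unfold FMM lenMM
  rw [contDiff_pi]
  intro i
  fin_cases i <;> simp <;> fun_prop

theorem cb {c x M : ℝ} (h0 : 0 ≤ c) (h1 : c ≤ 1) (hx : |x| ≤ M) : |c * x| ≤ M := by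
  rw [abs_mul, abs_of_nonneg h0]
  exact (mul_le_mul_of_nonneg_right h1 (abs_nonneg x)).trans (by rwa [one_mul])

theorem ab2 {x y M N : ℝ} (hx : |x| ≤ M) (hy : |y| ≤ N) : |x + y| ≤ M + N :=
  (abs_add_le x y).trans (add_le_add hx hy)

/-- The lengths in the box `|p i| ≤ M`. -/
theorem len_bd {a β t M : ℝ} {p : Fin 12 → ℝ} (a0 : 0 < a) (a1 : a < 1) (b0 : 0 < β) (b1 : β < 1)
    (t0 : 0 < t) (t1 : t < 1) (hM : 0 ≤ M) (hp : ∀ i, |p i| ≤ M) :
    (∃ q, |q| ≤ M ∧ lenMM a β t p 0 = t * (1 + t * q)) ∧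
    (∃ q, |q| ≤ 2 * M ∧ lenMM a β t p 1 = 1 + t - t ^ 2 * q) ∧
    |lenMM a β t p 2 - β| ≤ t * (1 + 5 * M) ∧ |lenMM a β t p 3 - (1 - β)| ≤ t * (1 + 5 * M) ∧
    |lenMM a β t p 4 - β| ≤ t * (1 + 5 * M) ∧ |lenMM a β t p 5 - (1 - β)| ≤ t * (1 + 5 * M) := by
  have ht : 0 ≤ 1 - t := by linarith
  have ha : 0 ≤ 1 - a := by linarith
  have hb : 0 ≤ 1 - β := by linarith
  have key : ∀ x Q : ℝ, |Q| ≤ 1 + 5 * M → x = t * Q → |x| ≤ t * (1 + 5 * M) := by
    intro x Q hQ hx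
    rw [hx, abs_mul, abs_of_pos t0]
    exact mul_le_mul_of_nonneg_left hQ t0.le
  have hA : |p 0| ≤ M := hp 0
  have hB : |-p 0 + t * p 1| ≤ 2 * M := by
    have h1 : |-p 0| ≤ M := by rw [abs_neg]; exact hp 0
    have h2 : |t * p 1| ≤ M := cb t0.le t1.le (hp 1)
    have := ab2 h1 h2
    linarith
  refine ⟨⟨(1 - t) * (β * p 8 + (1 - β) * p 9), ?_, ?_⟩,
    ⟨a * p 4 + (1 - a) * (p 4 + t * p 7), ?_, ?_⟩, ?_, ?_, ?_, ?_⟩
  · refine cb ht (by linarith) ?_
    have h1 : |β * p 8| ≤ β * M := by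
      rw [abs_mul, abs_of_pos b0]
      exact mul_le_mul_of_nonneg_left (hp 8) b0.le
    have h2 : |(1 - β) * p 9| ≤ (1 - β) * M := by
      rw [abs_mul, abs_of_nonneg hb]
      exact mul_le_mul_of_nonneg_left (hp 9) hb
    have := ab2 h1 h2
    linarith
  · rw [show lenMM a β t p 0 = t * (1 + (1 - t) * t * (β * p 8 + (1 - β) * p 9)) from rfl]
    ring
  · have h1 : |a * p 4| ≤ a * M := by
      rw [abs_mul, abs_of_pos a0]
      exact mul_le_mul_of_nonneg_left (hp 4) a0.le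
    have h2 : |p 4 + t * p 7| ≤ M + M := ab2 (hp 4) (cb t0.le t1.le (hp 7))
    have h3 : |(1 - a) * (p 4 + t * p 7)| ≤ (1 - a) * (M + M) := by
      rw [abs_mul, abs_of_nonneg ha]
      exact mul_le_mul_of_nonneg_left h2 ha
    have := ab2 h1 h3
    nlinarith
  · simp [lenMM]
  · refine key _ ((1 - β) + ((1 - t) * (1 - β) * p 3 + (1 - a) * (-p 0))) ?_ ?_
    · have h1 : |1 - β| ≤ 1 := by rw [abs_of_nonneg hb]; linarith
      have h2 : |(1 - t) * (1 - β) * p 3| ≤ M := cb (by positivity) (by nlinarith) (hp 3)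
      have h3 : |(1 - a) * (-p 0)| ≤ M := cb ha (by linarith) (by rw [abs_neg]; exact hp 0)
      have := ab2 h1 (ab2 h2 h3)
      linarith
    · simp [lenMM]
      ring
  · refine key _ (β + ((1 - t) * β * p 2 + (1 - a) * (-(-p 0 + t * p 1)))) ?_ ?_
    · have h1 : |β| ≤ 1 := by rw [abs_of_pos b0]; linarith
      have h2 : |(1 - t) * β * p 2| ≤ M := cb (by positivity) (by nlinarith) (hp 2)
      have h3 : |(1 - a) * (-(-p 0 + t * p 1))| ≤ 2 * M :=
        cb ha (by linarith) (by rw [abs_neg]; exact hB)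
      have := ab2 h1 (ab2 h2 h3)
      linarith
    · simp [lenMM]
      ring
  · refine key _ ((1 - β) + ((1 - t) * (1 - β) * (p 3 + t * p 6) + a * (p 0 + t * (-p 10)))) ?_ ?_
    · have h1 : |1 - β| ≤ 1 := by rw [abs_of_nonneg hb]; linarith
      have h2 : |(1 - t) * (1 - β) * (p 3 + t * p 6)| ≤ M + M :=
        cb (by positivity) (by nlinarith) (ab2 (hp 3) (cb t0.le t1.le (hp 6)))
      have h3 : |a * (p 0 + t * (-p 10))| ≤ M + M :=
        cb a0.le a1.le (ab2 (hp 0) (cb t0.le t1.le (by rw [abs_neg]; exact hp 10)))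
      have := ab2 h1 (ab2 h2 h3)
      linarith
    · simp [lenMM]
      ring
  · refine key _ (β + ((1 - t) * β * (p 2 + t * p 5) +
      a * ((-p 0 + t * p 1) + t * (-p 11)))) ?_ ?_
    · have h1 : |β| ≤ 1 := by rw [abs_of_pos b0]; linarith
      have h2 : |(1 - t) * β * (p 2 + t * p 5)| ≤ M + M :=
        cb (by positivity) (by nlinarith) (ab2 (hp 2) (cb t0.le t1.le (hp 5)))
      have h3 : |a * ((-p 0 + t * p 1) + t * (-p 11))| ≤ 2 * M + M :=
        cb a0.le a1.le (ab2 hB (cb t0.le t1.le (by rw [abs_neg]; exact hp 11)))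
      have := ab2 h1 (ab2 h2 h3)
      linarith
    · simp [lenMM]
      ring

theorem mmc (h1 : LIM) (h2 : MMF) (h3 : MME) (h4 : MMS) (h5 : MMB) (h6 : MMZ) (h7 : MMN) :
    MMC := by
  classical
  intro a₀ β₀ a0 a1 b0 b1 hne
  obtain ⟨δ₁, hδ₁, ε₁, hε₁, hF⟩ := h2 a₀ β₀ a0 a1 b0 b1
  obtain ⟨δ₂, hδ₂, ε₂, hε₂, C, hC⟩ := h5 a₀ β₀ a0 a1 b0 b1
  obtain ⟨ε₃, hε₃, hL⟩ := h1 a₀ β₀ a0 a1 b0 b1 (min (min δ₁ δ₂) (min β₀ (1 - β₀)))
    (lt_min (lt_min hδ₁ hδ₂) (lt_min b0 (by linarith)))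
  obtain ⟨hz1, hz2⟩ := h6 a₀ β₀ a0 a1 b0 b1 hne
  have hfin : {p : Fin 12 → ℝ | ∃ s e, seMM a₀ β₀ s e ∧ p = zMM a₀ β₀ s e}.Finite :=
    Set.finite_of_ncard_ne_zero (by rw [hz2]; norm_num)
  obtain ⟨Z, hZ⟩ : ∃ Z : Finset (Fin 12 → ℝ), Z = hfin.toFinset := ⟨_, rfl⟩
  have hZm : ∀ p, p ∈ Z ↔ ∃ s e, seMM a₀ β₀ s e ∧ p = zMM a₀ β₀ s e := by
    intro p
    rw [hZ, Set.Finite.mem_toFinset]
    rfl
  have hZc : Z.card = 4 := by
    rw [hZ, ← Set.ncard_eq_toFinset_card _ hfin, hz2]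
  -- the box
  obtain ⟨M, hM⟩ : ∃ M : ℝ, M = max |C| (∑ z ∈ Z, ‖z‖) := ⟨_, rfl⟩
  have hM0 : 0 ≤ M := by
    rw [hM]
    exact le_max_of_le_left (abs_nonneg C)
  have hCM : C ≤ M := by
    rw [hM]
    exact (le_abs_self C).trans (le_max_left _ _)
  have hZM : ∀ z ∈ Z, ∀ i, |z i| ≤ M := by
    intro z hz i
    calc |z i| = ‖z i‖ := (Real.norm_eq_abs _).symm
      _ ≤ ‖z‖ := norm_le_pi_norm z i
      _ ≤ ∑ z ∈ Z, ‖z‖ := single_le_sum (f := fun z : Fin 12 → ℝ ↦ ‖z‖)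
          (fun _ _ ↦ norm_nonneg _) hz
      _ ≤ M := by rw [hM]; exact le_max_right _ _
  -- a solution of the class `MM` is near the limit point `MM` near
  have hnear : ∀ a β t v, Near2 a₀ β₀ (min ε₁ (min ε₂ ε₃)) a β t → Sol2 a β t v → v 2 < 1 →
      v 3 < 1 → v 4 < 1 → v 5 < 1 → ∀ i, |parMM t v i| ≤ C := by
    intro a β t v hN hv l2 l3 l4 l5
    obtain ⟨L, hLm, hLv⟩ := hL a β t v
      (hN.mono ((min_le_right _ _).trans (min_le_right _ _))) hv
    have hLb : ∀ i, |v i - L i| < β₀ := fun i ↦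
      (hLv i).trans_le ((min_le_right _ _).trans (min_le_left _ _))
    have hLg : ∀ i, |v i - L i| < 1 - β₀ := fun i ↦
      (hLv i).trans_le ((min_le_right _ _).trans (min_le_right _ _))
    have hL1 : ∀ i, |v i - L i| < δ₁ := fun i ↦
      (hLv i).trans_le ((min_le_left _ _).trans (min_le_left _ _))
    have hL2 : ∀ i, |v i - L i| < δ₂ := fun i ↦
      (hLv i).trans_le ((min_le_left _ _).trans (min_le_right _ _))
    have hb3 := (abs_lt.1 (hLb 3)).1
    have hb5 := (abs_lt.1 (hLb 5)).1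
    have hg2 := (abs_lt.1 (hLg 2)).1
    have hg4 := (abs_lt.1 (hLg 4)).1
    simp only [Lim, List.mem_cons, List.not_mem_nil, or_false] at hLm
    rcases hLm with rfl | rfl | rfl | rfl | rfl | rfl | rfl | rfl | rfl | rfl | rfl | rfl
    · exfalso
      simp at hb3
      linarith
    · exfalso
      simp at hb3
      linarith
    · exfalso
      simp at hg2
      linarith
    · exfalso
      simp at hg2
      linarith
    · exact hC a β t v (hN.mono ((min_le_right _ _).trans (min_le_left _ _))) hv hL2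
    · exact (hF a β t v (hN.mono (min_le_left _ _)) hv hL1).elim
    · exfalso
      simp at hb5
      linarith
    · exfalso
      simp at hb3
      linarith
    · exfalso
      simp at hg4
      linarith
    · exfalso
      simp at hg2
      linarith
    · exfalso
      simp at hb3
      linarith
    · exfalso
      simp at hg2
      linarith
  -- the small parameter
  obtain ⟨m, hm⟩ : ∃ m : ℝ, m = min (min a₀ (1 - a₀)) (min β₀ (1 - β₀)) := ⟨_, rfl⟩
  have hm0 : 0 < m := by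
    rw [hm]
    exact lt_min (lt_min a0 (by linarith)) (lt_min b0 (by linarith))
  have hm1 : m ≤ a₀ := by
    rw [hm]
    exact (min_le_left _ _).trans (min_le_left _ _)
  have hm2 : m ≤ 1 - a₀ := by
    rw [hm]
    exact (min_le_left _ _).trans (min_le_right _ _)
  have hm3 : m ≤ β₀ := by
    rw [hm]
    exact (min_le_right _ _).trans (min_le_left _ _)
  have hm4 : m ≤ 1 - β₀ := by
    rw [hm]
    exact (min_le_right _ _).trans (min_le_right _ _)
  obtain ⟨R, hR⟩ : ∃ R : ℝ, R = 1 + 5 * (M + 1) := ⟨_, rfl⟩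
  have hR0 : 0 < R := by
    rw [hR]
    positivity
  have hR1 : 1 ≤ R := by
    rw [hR]
    linarith
  obtain ⟨η, hη⟩ : ∃ η : ℝ, η = m / (4 * R) := ⟨_, rfl⟩
  have hη0 : 0 < η := by
    rw [hη]
    positivity
  have hηR : η * R = m / 4 := by
    rw [hη]
    field_simp
  have hηm : η ≤ m / 4 := by
    rw [← hηR]
    nlinarith
  obtain ⟨ε₀, hε₀⟩ : ∃ ε₀ : ℝ, ε₀ = min (min ε₁ (min ε₂ ε₃)) η := ⟨_, rfl⟩
  have hε₀0 : 0 < ε₀ := by
    rw [hε₀]
    exact lt_min (lt_min hε₁ (lt_min hε₂ hε₃)) hη0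
  have hε₀1 : ε₀ ≤ min ε₁ (min ε₂ ε₃) := by
    rw [hε₀]
    exact min_le_left _ _
  have hε₀2 : ε₀ ≤ η := by
    rw [hε₀]
    exact min_le_right _ _
  have hpar : ∀ a β t, Near2 a₀ β₀ ε₀ a β t → 0 < a ∧ a < 1 ∧ m / 2 < β ∧ β < 1 - m / 2 ∧
      0 < t ∧ t < 1 ∧ t * R < m / 4 := by
    intro a β t hN
    have qa := abs_lt.1 hN.ha
    have qb := abs_lt.1 hN.hb
    have t0 := hN.t0
    have t1 := hN.t1
    refine ⟨by linarith [qa.1, qa.2], by linarith [qa.1, qa.2], by linarith [qb.1, qb.2],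
      by linarith [qb.1, qb.2], t0, by linarith, ?_⟩
    rw [← hηR]
    exact mul_lt_mul_of_pos_right (t1.trans_le hε₀2) hR0
  obtain ⟨S, hS⟩ : ∃ S : ℝ → ℝ → ℝ → Set (Fin 12 → ℝ), S = fun a β t ↦
      {p | Sol2 a β t (lenMM a β t p) ∧ lenMM a β t p 2 < 1 ∧ lenMM a β t p 3 < 1 ∧
        lenMM a β t p 4 < 1 ∧ lenMM a β t p 5 < 1 ∧ parMM t (lenMM a β t p) = p} := ⟨_, rfl⟩
  have hSm : ∀ a β t p, p ∈ S a β t ↔ Sol2 a β t (lenMM a β t p) ∧ lenMM a β t p 2 < 1 ∧
      lenMM a β t p 3 < 1 ∧ lenMM a β t p 4 < 1 ∧ lenMM a β t p 5 < 1 ∧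
        parMM t (lenMM a β t p) = p := by
    intro a β t p
    rw [hS]
    rfl
  obtain ⟨ε, hε, hcount⟩ := count_set2 FMM FMM_cd a₀ β₀
    (Set.Icc (fun _ ↦ -M) (fun _ ↦ M)) isCompact_Icc Z
    (fun u _ hu ↦ (hZm u).2 ((hz1 u).1 hu)) (fun z hz ↦ (hz1 z).2 ((hZm z).1 hz))
    (fun z hz v hv ↦ by
      obtain ⟨s, e, hse, rfl⟩ := (hZm z).1 hz
      exact h7 a₀ β₀ a0 a1 b0 b1 hne s e hse v hv)
    (Set.pi Set.univ fun _ ↦ Set.Ioo (-(M + 1)) (M + 1))
    (fun z hz ↦ by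
      refine (isOpen_set_pi Set.finite_univ fun i _ ↦ isOpen_Ioo).mem_nhds ?_
      intro i _
      have := abs_le.1 (hZM z hz i)
      exact ⟨by linarith [this.1], by linarith [this.2]⟩)
    S ε₀ hε₀0
    (fun a β t hN p hp ↦ by
      obtain ⟨q1, q2, q3, q4, q5, q6⟩ := (hSm a β t p).1 hp
      obtain ⟨-, -, k3, k4, k5, k6, -⟩ := hpar a β t hN
      have e1 := h3 a β t _ k5 k6 (by linarith) (by linarith) q1
      have e2 := hnear a β t _ (hN.mono hε₀1) q1 q2 q3 q4 q5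
      rw [q6] at e1 e2
      refine ⟨⟨fun i ↦ ?_, fun i ↦ ?_⟩, e1.2⟩
      · have := abs_le.1 (e2 i)
        linarith [this.1]
      · have := abs_le.1 (e2 i)
        linarith [this.2])
    (fun a β t hN p hp h0 ↦ by
      obtain ⟨k1, k2, k3, k4, k5, k6, k7⟩ := hpar a β t hN
      have hp' : ∀ i, |p i| ≤ M + 1 := by
        intro i
        have := hp i trivial
        exact abs_le.2 ⟨this.1.le, this.2.le⟩
      obtain ⟨⟨q0, hq0, l0⟩, ⟨q1, hq1, l1⟩, l2, l3, l4, l5⟩ :=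
        len_bd (β := β) k1 k2 (by linarith) (by linarith) k5 k6 (by linarith : (0 : ℝ) ≤ M + 1) hp'
      rw [← hR] at l2 l3 l4 l5
      have l2' := abs_le.1 l2
      have l3' := abs_le.1 l3
      have l4' := abs_le.1 l4
      have l5' := abs_le.1 l5
      have m1 : m ≤ 1 := by linarith
      have hpos : ∀ i, 0 < lenMM a β t p i := by
        have p0 : 0 < lenMM a β t p 0 := by
          rw [l0]
          refine mul_pos k5 ?_
          have r1 : |t * q0| ≤ t * (M + 1) := by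
            rw [abs_mul, abs_of_pos k5]
            exact mul_le_mul_of_nonneg_left hq0 k5.le
          have r2 : t * (M + 1) ≤ t * R := by
            refine mul_le_mul_of_nonneg_left ?_ k5.le
            rw [hR]
            linarith
          have := (abs_le.1 r1).1
          linarith
        have p1 : 0 < lenMM a β t p 1 := by
          rw [l1]
          have r1 : |t * q1| ≤ t * (2 * (M + 1)) := by
            rw [abs_mul, abs_of_pos k5]
            exact mul_le_mul_of_nonneg_left hq1 k5.le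
          have r2 : t * (2 * (M + 1)) ≤ t * R := by
            refine mul_le_mul_of_nonneg_left ?_ k5.le
            rw [hR]
            linarith
          have r3 := (abs_le.1 r1).2
          have r4 : t ^ 2 * q1 = t * (t * q1) := by ring
          have r5 : t * (t * q1) ≤ t * 1 := mul_le_mul_of_nonneg_left (by linarith) k5.le
          rw [r4]
          linarith
        intro i
        fin_cases i
        · exact p0
        · exact p1
        · exact show 0 < lenMM a β t p 2 by linarith [l2'.1]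
        · exact show 0 < lenMM a β t p 3 by linarith [l3'.1]
        · exact show 0 < lenMM a β t p 4 by linarith [l4'.1]
        · exact show 0 < lenMM a β t p 5 by linarith [l5'.1]
      obtain ⟨s1, s2⟩ := h4 a β t p k5 k6 (by linarith) (by linarith) hpos h0
      exact (hSm a β t p).2 ⟨s1, by linarith [l2'.2], by linarith [l3'.2], by linarith [l4'.2],
        by linarith [l5'.2], s2⟩)
  refine ⟨min ε ε₀, lt_min hε hε₀0, fun a β t hN ↦ ?_⟩
  obtain ⟨k1, k2, k3, k4, k5, k6, k7⟩ := hpar a β t (hN.mono (min_le_right _ _))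
  have himg : {v : Fin 6 → ℝ | Sol2 a β t v ∧ v 2 < 1 ∧ v 3 < 1 ∧ v 4 < 1 ∧ v 5 < 1} =
      lenMM a β t '' S a β t := by
    ext v
    constructor
    · rintro ⟨q1, q2, q3, q4, q5⟩
      have e1 := (h3 a β t v k5 k6 (by linarith) (by linarith) q1).1
      refine ⟨parMM t v, (hSm a β t _).2 ?_, e1⟩
      rw [e1]
      exact ⟨q1, q2, q3, q4, q5, rfl⟩
    · rintro ⟨p, hp, rfl⟩
      obtain ⟨q1, q2, q3, q4, q5, -⟩ := (hSm a β t p).1 hp
      exact ⟨q1, q2, q3, q4, q5⟩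
  have hinj : Set.InjOn (lenMM a β t) (S a β t) := by
    intro p hp q hq hpq
    have e1 := ((hSm a β t p).1 hp).2.2.2.2.2
    have e2 := ((hSm a β t q).1 hq).2.2.2.2.2
    rw [← e1, ← e2, hpq]
  rw [himg, Set.ncard_image_of_injOn hinj, hcount a β t (hN.mono (min_le_left _ _)), hZc]

end Pool.Agent.Helper49.EIN2
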